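import Pool.Agent.Q211.HC.Word

/-!
# An invariant cone for an explicit linear representation
-/

set_option autoImplicit false

namespace Pool.Agent.Q211.HC

/-- States of the linear representation. -/
@[ext]
structure St where
  p : ℝ
  b : ℝ
  d : ℝ
  u : ℝ
  v : ℝ

/-- Appending a zero. -/
noncomputable def m0 (s : St) : St :=
  ⟨s.p - s.b - s.d, s.u, s.v, 347 / 1000 * s.p - 1 / 2 * s.b, 13 / 1000 * s.p - 13 / 200 * s.d⟩

/-- Appending a one. -/
noncomputable def m1 (s : St) : St :=
  ⟨s.b + s.d, 0, 0, 1 / 2 * s.b, 13 / 200 * s.d⟩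

/-- Nonnegativity of the three relevant coordinates. -/
def Pos (s : St) : Prop := 0 ≤ s.p ∧ 0 ≤ s.b ∧ 0 ≤ s.d

/-- The invariant cone. -/
def Good (s : St) : Prop :=
  Pos s ∧ Pos (m0 s) ∧ Pos (m0 (m0 s)) ∧ Pos (m0 (m0 (m0 s))) ∧ Pos (m0 (m0 (m0 (m0 s)))) ∧
    Pos (m0 (m0 (m0 (m0 (m0 s))))) ∧ Pos (m0 (m0 (m0 (m0 (m0 (m0 s)))))) ∧
    Pos (m0 (m0 (m0 (m0 (m0 (m0 (m0 s)))))))

theorem good_m0 (s : St) (h : Good s) : Good (m0 s) := by
  obtain ⟨h0, h1, h2, h3, h4, h5, h6, h7⟩ := h
  refine ⟨h1, h2, h3, h4, h5, h6, h7, ?_⟩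
  obtain ⟨p, b, d, u, v⟩ := s
  simp only [Pos, m0] at *
  obtain ⟨a0, a1, a2⟩ := h0
  obtain ⟨b0, b1, b2⟩ := h1
  obtain ⟨c0, c1, c2⟩ := h2
  obtain ⟨d0, d1, d2⟩ := h3
  obtain ⟨e0, e1, e2⟩ := h4
  obtain ⟨f0, f1, f2⟩ := h5
  obtain ⟨g0, g1, g2⟩ := h6
  obtain ⟨i0, i1, i2⟩ := h7
  refine ⟨?_, ?_, ?_⟩
  · linarith
  · linarith
  · linarith

/-- A combination of states. -/
noncomputable def comb (x y : ℝ) (s t : St) : St :=
  ⟨x * s.p + y * t.p, x * s.b + y * t.b, x * s.d + y * t.d, x * s.u + y * t.u,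
    x * s.v + y * t.v⟩

theorem m0_comb (x y : ℝ) (s t : St) : m0 (comb x y s t) = comb x y (m0 s) (m0 t) := by
  ext <;> simp only [m0, comb] <;> ring

theorem m1_comb (x y : ℝ) (s t : St) : m1 (comb x y s t) = comb x y (m1 s) (m1 t) := by
  ext <;> simp only [m1, comb] <;> ring

theorem pos_comb {x y : ℝ} (hx : 0 ≤ x) (hy : 0 ≤ y) {s t : St} (hs : Pos s) (ht : Pos t) :
    Pos (comb x y s t) := by
  obtain ⟨a0, a1, a2⟩ := hs
  obtain ⟨b0, b1, b2⟩ := ht
  refine ⟨?_, ?_, ?_⟩ <;> simp only [comb] <;> positivity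

theorem good_comb {x y : ℝ} (hx : 0 ≤ x) (hy : 0 ≤ y) {s t : St} (hs : Good s) (ht : Good t) :
    Good (comb x y s t) := by
  obtain ⟨h0, h1, h2, h3, h4, h5, h6, h7⟩ := hs
  obtain ⟨g0, g1, g2, g3, g4, g5, g6, g7⟩ := ht
  unfold Good
  simp only [m0_comb]
  exact ⟨pos_comb hx hy h0 g0, pos_comb hx hy h1 g1, pos_comb hx hy h2 g2, pos_comb hx hy h3 g3,
    pos_comb hx hy h4 g4, pos_comb hx hy h5 g5, pos_comb hx hy h6 g6, pos_comb hx hy h7 g7⟩

/-- The state after a one of the first kind. -/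
noncomputable def e1 : St := ⟨1, 0, 0, 1 / 2, 0⟩

/-- The state after a one of the second kind. -/
noncomputable def e2 : St := ⟨1, 0, 0, 0, 13 / 200⟩

/-- The initial state. -/
noncomputable def s0 : St := ⟨1, 347 / 1000, 13 / 1000, 347 / 1000, 13 / 1000⟩

theorem good_e1 : Good e1 := by
  unfold Good Pos e1 m0
  norm_num

theorem good_e2 : Good e2 := by
  unfold Good Pos e2 m0
  norm_num

theorem good_s0 : Good s0 := by
  unfold Good Pos s0 m0
  norm_num

theorem good_m1 (s : St) (h : Good s) : Good (m1 s) := by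
  have e : m1 s = comb s.b s.d e1 e2 := by
    ext <;> simp only [m1, comb, e1, e2] <;> ring
  rw [e]
  exact good_comb h.1.2.1 h.1.2.2 good_e1 good_e2

/-- Appending a letter. -/
noncomputable def act (s : St) (a : Fin 2) : St := if a = 0 then m0 s else m1 s

/-- The state after a word. -/
noncomputable def run (s : St) (w : List (Fin 2)) : St := w.foldl act s

theorem run_append (s : St) (x y : List (Fin 2)) : run s (x ++ y) = run (run s x) y := by
  unfold run
  rw [List.foldl_append]

theorem run_cons (s : St) (a : Fin 2) (y : List (Fin 2)) : run s (a :: y) = run (act s a) y := rfl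

theorem act_comb (x y : ℝ) (s t : St) (a : Fin 2) :
    act (comb x y s t) a = comb x y (act s a) (act t a) := by
  unfold act
  split_ifs
  · exact m0_comb _ _ _ _
  · exact m1_comb _ _ _ _

theorem run_comb (x y : ℝ) (w : List (Fin 2)) (s t : St) :
    run (comb x y s t) w = comb x y (run s w) (run t w) := by
  induction w generalizing s t with
  | nil => rfl
  | cons a w ih => rw [run_cons, run_cons, run_cons, act_comb, ih]

theorem good_act {s : St} (h : Good s) (a : Fin 2) : Good (act s a) := by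
  unfold act
  split_ifs
  · exact good_m0 s h
  · exact good_m1 s h

theorem good_run {s : St} (h : Good s) (w : List (Fin 2)) : Good (run s w) := by
  induction w generalizing s with
  | nil => exact h
  | cons a w ih => exact ih (good_act h a)

/-- The word probabilities. -/
noncomputable def PW (w : List (Fin 2)) : ℝ := (run s0 w).p

theorem act_sum (s : St) : comb 1 1 (act s 0) (act s 1) =
    ⟨s.p, s.u, s.v, 347 / 1000 * s.p, 13 / 1000 * s.p⟩ := by
  have h1 : act s 0 = m0 s := rfl
  have h2 : act s 1 = m1 s := rfl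
  rw [h1, h2]
  ext <;> simp only [m0, m1, comb] <;> ring

theorem act_sum_s0 : comb 1 1 (act s0 0) (act s0 1) = s0 := by
  rw [act_sum]
  simp only [s0]
  norm_num

theorem act_sum_sum (s : St) :
    comb 1 1 (act (comb 1 1 (act s 0) (act s 1)) 0) (act (comb 1 1 (act s 0) (act s 1)) 1) =
      comb s.p 0 s0 s0 := by
  rw [act_sum, act_sum]
  simp only [s0, comb]
  ext <;> ring

theorem p_comb (x y : ℝ) (s t : St) : (comb x y s t).p = x * s.p + y * t.p := rfl

theorem wlaw : WLaw PW where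
  nonneg w := (good_run good_s0 w).1.1
  nil := rfl
  hard := by
    show (m1 (m1 s0)).p = 0
    simp [m1]
  left w := by
    rw [Fin.sum_univ_two]
    show (run (act s0 0) w).p + (run (act s0 1) w).p = (run s0 w).p
    conv_rhs => rw [← act_sum_s0, run_comb, p_comb]
    ring
  right w := by
    rw [Fin.sum_univ_two]
    unfold PW
    rw [run_append, run_append]
    have h := congrArg St.p (act_sum (run s0 w))
    rw [p_comb, one_mul, one_mul] at h
    exact h
  mid x y := by
    rw [Fin.sum_univ_two, Fin.sum_univ_two, Fin.sum_univ_two]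
    unfold PW
    simp only [run_append, run_cons]
    set t := run s0 x with ht
    have h := congrArg (fun s => (run s y).p) (act_sum_sum t)
    simp only [act_comb, run_comb, p_comb] at h
    linarith

end Pool.Agent.Q211.HC
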