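import Mathlib

/-!
# Word laws of stationary 2-dependent hard-core processes on the integers
-/

set_option autoImplicit false

namespace Pool.Agent.Q211.HC

/-- The word probabilities of a stationary 2-dependent hard-core process on the integers. -/
structure WLaw (P : List (Fin 2) → ℝ) : Prop where
  nonneg : ∀ w, 0 ≤ P w
  nil : P [] = 1
  hard : P [1, 1] = 0
  left : ∀ w, ∑ a, P (a :: w) = P w
  right : ∀ w, ∑ a, P (w ++ [a]) = P w
  mid : ∀ x y, ∑ a, ∑ b, P (x ++ a :: b :: y) = P x * P y

end Pool.Agent.Q211.HC
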