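import Mathlib
import Pool.Agent.Q211.HC.Meas

set_option autoImplicit false

open MeasureTheory ProbabilityTheory Filter Topology
open scoped ENNReal

/-!
# Independence of separated sets of sites
-/

namespace Pool.Agent.Q211.HC

variable {P : List (Fin 2) → ℝ}

local instance instMSL' : MeasurableSpace (List (Fin 2)) := ⊤

local instance instDMSL' : DiscreteMeasurableSpace (List (Fin 2)) := ⟨fun _ => trivial⟩

theorem measurable_win' (a : ℤ) (n : ℕ) : Measurable (fun x : ℤ → Fin 2 => win x a n) := by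
  apply measurable_to_countable'
  intro w
  exact measurableSet_win a n w

theorem indep_win (hP : WLaw P) {κ : Measure (ℤ → Fin 2)} [IsProbabilityMeasure κ]
    (h : ∀ (a : ℤ) (w : List (Fin 2)), κ {x | win x a w.length = w} = q P w) (a : ℤ) (m n : ℕ) :
    IndepFun (fun x : ℤ → Fin 2 => win x a m) (fun x : ℤ → Fin 2 => win x (a + m + 2) n) κ := by
  have m1 := measurable_win' a m
  have m2 := measurable_win' (a + m + 2) n
  rw [indepFun_iff_map_prod_eq_prod_map_map m1.aemeasurable m2.aemeasurable]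
  apply Measure.ext_of_singleton
  rintro ⟨u, v⟩
  rw [Measure.map_apply (m1.prodMk m2) (measurableSet_singleton _),
    ← Set.singleton_prod_singleton, Measure.prod_prod,
    Measure.map_apply m1 (measurableSet_singleton _),
    Measure.map_apply m2 (measurableSet_singleton _)]
  have e0 : (fun x : ℤ → Fin 2 => (win x a m, win x (a + m + 2) n)) ⁻¹' ({u} ×ˢ {v}) =
      {x | win x a m = u ∧ win x (a + m + 2) n = v} := by
    ext x
    simp
  rw [e0]
  by_cases hu : u.length = m
  · by_cases hv : v.length = n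
    · have e1 : κ ((fun x : ℤ → Fin 2 => win x a m) ⁻¹' {u}) = q P u := by
        have := h a u
        rw [hu] at this
        exact this
      have e2 : κ ((fun x : ℤ → Fin 2 => win x (a + m + 2) n) ⁻¹' {v}) = q P v := by
        have := h (a + m + 2) v
        rw [hv] at this
        exact this
      rw [e1, e2, ← q_mid hP u v, ← Finset.sum_product']
      have e3 : {x : ℤ → Fin 2 | win x a m = u ∧ win x (a + m + 2) n = v} =
          ⋃ c : Fin 2 × Fin 2, {x | win x a (u ++ c.1 :: c.2 :: v).length = u ++ c.1 :: c.2 :: v} := by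
        ext x
        rw [Set.mem_iUnion]
        have hl : ∀ c : Fin 2 × Fin 2, (u ++ c.1 :: c.2 :: v).length = m + (1 + (1 + n)) := by
          intro c; simp [hu, hv]; omega
        have hsplit : win x a (m + (1 + (1 + n))) =
            win x a m ++ ([x (a + m)] ++ ([x (a + m + 1)] ++ win x (a + m + 2) n)) := by
          rw [win_append x a m (1 + (1 + n)), win_append x (a + m) 1 (1 + n), win_one]
          rw [win_append x _ 1 n, win_one]
          have e5 : a + (m : ℤ) + ((1 : ℕ) : ℤ) = a + m + 1 := by norm_num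
          rw [e5]
          have e6 : a + (m : ℤ) + 1 + ((1 : ℕ) : ℤ) = a + m + 2 := by push_cast; ring
          rw [e6]
        constructor
        · rintro ⟨h1, h2⟩
          refine ⟨(x (a + m), x (a + m + 1)), ?_⟩
          show win x a (u ++ x (a + m) :: x (a + m + 1) :: v).length =
            u ++ x (a + m) :: x (a + m + 1) :: v
          rw [hl (x (a + m), x (a + m + 1)), hsplit, h1, h2]
          rfl
        · rintro ⟨c, hc⟩
          have hc' : win x a (u ++ c.1 :: c.2 :: v).length = u ++ c.1 :: c.2 :: v := hc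
          rw [hl, hsplit] at hc'
          have h1 := List.append_inj hc' (by rw [win_length, hu])
          refine ⟨h1.1, ?_⟩
          have h2 := h1.2
          simp only [List.singleton_append, List.cons.injEq] at h2
          exact h2.2.2
      rw [e3, measure_iUnion, tsum_fintype]
      · rw [← Finset.univ_product_univ]
        exact Finset.sum_congr rfl (fun c _ => h a _)
      · intro c c' hcc'
        rw [Function.onFun, Set.disjoint_left]
        intro x hx hx'
        have h1 : win x a (u ++ c.1 :: c.2 :: v).length = u ++ c.1 :: c.2 :: v := hx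
        have h2 : win x a (u ++ c'.1 :: c'.2 :: v).length = u ++ c'.1 :: c'.2 :: v := hx'
        have hl : (u ++ c.1 :: c.2 :: v).length = (u ++ c'.1 :: c'.2 :: v).length := by simp
        rw [hl, h2] at h1
        apply hcc'
        have := List.append_cancel_left h1
        simp only [List.cons.injEq, and_true] at this
        exact Prod.ext this.1.symm this.2.symm
      · intro c
        exact measurableSet_win _ _ _
    · have e1 : {x : ℤ → Fin 2 | win x a m = u ∧ win x (a + m + 2) n = v} = ∅ := by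
        ext x
        simp only [Set.mem_ofPred_eq, Set.mem_empty_iff_false, iff_false, not_and]
        intro _ h'
        apply hv
        rw [← h', win_length]
      have e2 : (fun x : ℤ → Fin 2 => win x (a + m + 2) n) ⁻¹' {v} = ∅ := by
        ext x
        simp only [Set.mem_preimage, Set.mem_singleton_iff, Set.mem_empty_iff_false, iff_false]
        intro h'
        apply hv
        rw [← h', win_length]
      rw [e1, e2]; simp
  · have e1 : {x : ℤ → Fin 2 | win x a m = u ∧ win x (a + m + 2) n = v} = ∅ := by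
      ext x
      simp only [Set.mem_ofPred_eq, Set.mem_empty_iff_false, iff_false, not_and]
      intro h'
      exfalso
      apply hu
      rw [← h', win_length]
    have e2 : (fun x : ℤ → Fin 2 => win x a m) ⁻¹' {u} = ∅ := by
      ext x
      simp only [Set.mem_preimage, Set.mem_singleton_iff, Set.mem_empty_iff_false, iff_false]
      intro h'
      apply hu
      rw [← h', win_length]
    rw [e1, e2]; simp

/-- Cylinder events. -/
def cyl (S : Finset ℤ) (z : ℤ → Fin 2) : Set (ℤ → Fin 2) := {x | ∀ i ∈ S, x i = z i}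

theorem cyl_union (S T : Finset ℤ) (z : ℤ → Fin 2) : cyl (S ∪ T) z = cyl S z ∩ cyl T z := by
  ext x
  simp only [cyl, Set.mem_ofPred_eq, Set.mem_inter_iff, Finset.mem_union]
  constructor
  · intro h
    exact ⟨fun i hi => h i (Or.inl hi), fun i hi => h i (Or.inr hi)⟩
  · rintro ⟨h1, h2⟩ i (hi | hi)
    · exact h1 i hi
    · exact h2 i hi

theorem cyl_empty (z : ℤ → Fin 2) : cyl ∅ z = Set.univ := by
  ext x; simp [cyl]

theorem cyl_eq_win (S : Finset ℤ) (z : ℤ → Fin 2) (a : ℤ) (n : ℕ)
    (h : ∀ i ∈ S, a ≤ i ∧ i < a + n) :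
    cyl S z = (fun x : ℤ → Fin 2 => win x a n) ⁻¹' {l | ∀ i ∈ S, l.getD (i - a).toNat 0 = z i} := by
  ext x
  simp only [cyl, Set.mem_ofPred_eq, Set.mem_preimage]
  have key : ∀ i ∈ S, (win x a n).getD (i - a).toNat 0 = x i := by
    intro i hi
    have := h i hi
    rw [win_getD _ _ _ _ (by omega)]
    congr 1
    omega
  constructor
  · intro hx i hi
    rw [key i hi, hx i hi]
  · intro hx i hi
    rw [← key i hi, hx i hi]

theorem half_line (hP : WLaw P) {κ : Measure (ℤ → Fin 2)} [IsProbabilityMeasure κ]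
    (h : ∀ (a : ℤ) (w : List (Fin 2)), κ {x | win x a w.length = w} = q P w)
    (A B : Finset ℤ) (j : ℤ) (hA : ∀ a ∈ A, a ≤ j) (hB : ∀ b ∈ B, j + 2 < b) (z : ℤ → Fin 2) :
    κ (cyl (A ∪ B) z) = κ (cyl A z) * κ (cyl B z) := by
  obtain ⟨N, hN⟩ : ∃ N : ℕ, ∀ i ∈ A ∪ B, i.natAbs < N :=
    ⟨((A ∪ B).sup Int.natAbs) + 1,
      fun i hi => Nat.lt_succ_of_le (Finset.le_sup (f := Int.natAbs) hi)⟩
  -- windows `[j - M, j]` and `[j + 3, j + 3 + M')`
  set M : ℕ := N + j.natAbs + 1 with hM
  have hind := indep_win hP h (j + 1 - M) M M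
  have e : j + 1 - (M : ℤ) + M + 2 = j + 3 := by ring
  rw [e] at hind
  have hA' : ∀ i ∈ A, j + 1 - (M : ℤ) ≤ i ∧ i < j + 1 - (M : ℤ) + M := by
    intro i hi
    have h1 := hN i (Finset.mem_union_left _ hi)
    have h2 := hA i hi
    omega
  have hB' : ∀ i ∈ B, j + 3 ≤ i ∧ i < j + 3 + (M : ℤ) := by
    intro i hi
    have h1 := hN i (Finset.mem_union_right _ hi)
    have h2 := hB i hi
    omega
  rw [cyl_union, cyl_eq_win A z _ M hA', cyl_eq_win B z _ M hB']
  exact hind.measure_inter_preimage_eq_mul _ _ MeasurableSet.of_discrete MeasurableSet.of_discrete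

theorem indep_cyl (hP : WLaw P) {κ : Measure (ℤ → Fin 2)} [IsProbabilityMeasure κ]
    (h : ∀ (a : ℤ) (w : List (Fin 2)), κ {x | win x a w.length = w} = q P w) (z : ℤ → Fin 2) :
    ∀ (n : ℕ) (A B : Finset ℤ), A.card + B.card = n →
      (∀ a ∈ A, ∀ b ∈ B, (2 : ℤ) < |a - b|) →
      κ (cyl (A ∪ B) z) = κ (cyl A z) * κ (cyl B z) := by
  intro n
  induction n using Nat.strong_induction_on with
  | _ n ih =>
    -- the case in which the maximum lies in `B`
    have main : ∀ (A B : Finset ℤ) (hA : A.Nonempty), A.card + B.card = n →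
        (∀ a ∈ A, ∀ b ∈ B, (2 : ℤ) < |a - b|) → (∃ b ∈ B, A.max' hA < b) →
        κ (cyl (A ∪ B) z) = κ (cyl A z) * κ (cyl B z) := by
      intro A B hA hn hd hb
      set j := A.max' hA with hj
      have hjA : j ∈ A := Finset.max'_mem A hA
      have hle : ∀ a ∈ A, a ≤ j := fun a ha => Finset.le_max' A a ha
      let B1 := B.filter (fun b => b < j)
      let B2 := B.filter (fun b => ¬ b < j)
      have hB : B1 ∪ B2 = B := Finset.filter_union_filter_not_eq _ B
      have hB2 : ∀ b ∈ B2, j + 2 < b := by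
        intro b hb2
        have h1 := Finset.mem_filter.1 hb2
        have h2 := hd j hjA b h1.1
        have h3 := not_lt.1 h1.2
        rw [abs_of_nonpos (by linarith)] at h2
        linarith
      have hB1 : ∀ b ∈ B1, b ≤ j := fun b hb1 => (Finset.mem_filter.1 hb1).2.le
      have hcard : B1.card < B.card := by
        apply Finset.card_lt_card
        refine ⟨Finset.filter_subset _ _, ?_⟩
        obtain ⟨b, hbB, hbj⟩ := hb
        intro hsub
        have := (Finset.mem_filter.1 (hsub hbB)).2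
        exact absurd this (not_lt.2 hbj.le)
      have s1 : κ (cyl ((A ∪ B1) ∪ B2) z) = κ (cyl (A ∪ B1) z) * κ (cyl B2 z) := by
        apply half_line hP h _ _ j _ hB2
        intro a ha
        rcases Finset.mem_union.1 ha with ha | ha
        · exact hle a ha
        · exact hB1 a ha
      have s2 : κ (cyl (A ∪ B1) z) = κ (cyl A z) * κ (cyl B1 z) := by
        apply ih (A.card + B1.card) (by omega) A B1 rfl
        intro a ha b hb'
        exact hd a ha b (Finset.mem_filter.1 hb').1
      have s3 : κ (cyl (B1 ∪ B2) z) = κ (cyl B1 z) * κ (cyl B2 z) :=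
        half_line hP h _ _ j hB1 hB2 z
      have s4 : (A ∪ B1) ∪ B2 = A ∪ B := by rw [Finset.union_assoc, hB]
      rw [← s4, s1, s2, mul_assoc, ← s3, hB]
    intro A B hn hd
    rcases A.eq_empty_or_nonempty with rfl | hA
    · rw [Finset.empty_union, cyl_empty, measure_univ, one_mul]
    rcases B.eq_empty_or_nonempty with rfl | hB
    · rw [Finset.union_empty, cyl_empty, measure_univ, mul_one]
    rcases lt_trichotomy (A.max' hA) (B.max' hB) with hlt | heq | hgt
    · exact main A B hA hn hd ⟨B.max' hB, Finset.max'_mem B hB, hlt⟩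
    · exfalso
      have := hd _ (Finset.max'_mem A hA) _ (Finset.max'_mem B hB)
      rw [heq, sub_self, abs_zero] at this
      norm_num at this
    · have := main B A hB (by omega) (fun b hb a ha => by
        rw [abs_sub_comm]; exact hd a ha b hb) ⟨A.max' hA, Finset.max'_mem A hA, hgt⟩
      rw [Finset.union_comm, this, mul_comm]

theorem indep_finset (hP : WLaw P) {κ : Measure (ℤ → Fin 2)} [IsProbabilityMeasure κ]
    (h : ∀ (a : ℤ) (w : List (Fin 2)), κ {x | win x a w.length = w} = q P w)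
    (A B : Set ℤ) (hd : ∀ a ∈ A, ∀ b ∈ B, (2 : ℤ) < |a - b|) (I : Finset A) (J : Finset B) :
    IndepFun (fun (x : ℤ → Fin 2) (i : I) => x ((i : A) : ℤ))
      (fun (x : ℤ → Fin 2) (j : J) => x ((j : B) : ℤ)) κ := by
  have m1 : Measurable (fun (x : ℤ → Fin 2) (i : I) => x ((i : A) : ℤ)) := by fun_prop
  have m2 : Measurable (fun (x : ℤ → Fin 2) (j : J) => x ((j : B) : ℤ)) := by fun_prop
  rw [indepFun_iff_map_prod_eq_prod_map_map m1.aemeasurable m2.aemeasurable]
  apply Measure.ext_of_singleton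
  rintro ⟨u, v⟩
  rw [Measure.map_apply (m1.prodMk m2) (measurableSet_singleton _),
    ← Set.singleton_prod_singleton, Measure.prod_prod,
    Measure.map_apply m1 (measurableSet_singleton _),
    Measure.map_apply m2 (measurableSet_singleton _)]
  classical
  let A' : Finset ℤ := I.map (Function.Embedding.subtype _)
  let B' : Finset ℤ := J.map (Function.Embedding.subtype _)
  have hA' : ∀ i : ℤ, i ∈ A' ↔ ∃ hi : i ∈ A, (⟨i, hi⟩ : A) ∈ I := by
    intro i
    simp [A']
  have hB' : ∀ i : ℤ, i ∈ B' ↔ ∃ hi : i ∈ B, (⟨i, hi⟩ : B) ∈ J := by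
    intro i
    simp [B']
  have hd' : ∀ a ∈ A', ∀ b ∈ B', (2 : ℤ) < |a - b| := by
    intro a ha b hb
    exact hd a ((hA' a).1 ha).1 b ((hB' b).1 hb).1
  let z : ℤ → Fin 2 := fun i =>
    if h1 : ∃ hi : i ∈ A, (⟨i, hi⟩ : A) ∈ I then u ⟨⟨i, h1.1⟩, h1.2⟩ else
      if h2 : ∃ hi : i ∈ B, (⟨i, hi⟩ : B) ∈ J then v ⟨⟨i, h2.1⟩, h2.2⟩ else 0
  have hzA : ∀ i : I, z ((i : A) : ℤ) = u i := by
    intro i
    have h1 : ∃ hi : ((i : A) : ℤ) ∈ A, (⟨((i : A) : ℤ), hi⟩ : A) ∈ I := ⟨(i : A).2, i.2⟩
    simp only [z]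
    rw [dif_pos h1]
  have hzB : ∀ j : J, z ((j : B) : ℤ) = v j := by
    intro j
    have h1 : ¬ ∃ hi : ((j : B) : ℤ) ∈ A, (⟨((j : B) : ℤ), hi⟩ : A) ∈ I := by
      rintro ⟨hi, _⟩
      have := hd _ hi _ (j : B).2
      simp at this
    have h2 : ∃ hi : ((j : B) : ℤ) ∈ B, (⟨((j : B) : ℤ), hi⟩ : B) ∈ J := ⟨(j : B).2, j.2⟩
    simp only [z]
    rw [dif_neg h1, dif_pos h2]
  have eA : (fun (x : ℤ → Fin 2) (i : I) => x ((i : A) : ℤ)) ⁻¹' {u} = cyl A' z := by
    ext x
    simp only [Set.mem_preimage, Set.mem_singleton_iff, cyl, Set.mem_ofPred_eq]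
    constructor
    · intro hx i hi
      obtain ⟨h1, h2⟩ := (hA' i).1 hi
      have := congrFun hx ⟨⟨i, h1⟩, h2⟩
      rw [← hzA ⟨⟨i, h1⟩, h2⟩] at this
      exact this
    · intro hx
      funext i
      rw [← hzA i]
      exact hx _ ((hA' _).2 ⟨(i : A).2, i.2⟩)
  have eB : (fun (x : ℤ → Fin 2) (j : J) => x ((j : B) : ℤ)) ⁻¹' {v} = cyl B' z := by
    ext x
    simp only [Set.mem_preimage, Set.mem_singleton_iff, cyl, Set.mem_ofPred_eq]
    constructor
    · intro hx i hi
      obtain ⟨h1, h2⟩ := (hB' i).1 hi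
      have := congrFun hx ⟨⟨i, h1⟩, h2⟩
      rw [← hzB ⟨⟨i, h1⟩, h2⟩] at this
      exact this
    · intro hx
      funext i
      rw [← hzB i]
      exact hx _ ((hB' _).2 ⟨(i : B).2, i.2⟩)
  have e0 : (fun x : ℤ → Fin 2 => ((fun (i : I) => x ((i : A) : ℤ)),
      (fun (j : J) => x ((j : B) : ℤ)))) ⁻¹' ({u} ×ˢ {v}) = cyl A' z ∩ cyl B' z := by
    rw [← eA, ← eB]
    ext x
    simp
  rw [e0, eA, eB, ← cyl_union]
  exact indep_cyl hP h z _ A' B' rfl hd'

theorem indep_sets (hP : WLaw P) {κ : Measure (ℤ → Fin 2)} [IsProbabilityMeasure κ]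
    (h : ∀ (a : ℤ) (w : List (Fin 2)), κ {x | win x a w.length = w} = q P w)
    (A B : Set ℤ) (hd : ∀ a ∈ A, ∀ b ∈ B, (2 : ℤ) < |a - b|) :
    IndepFun (fun (x : ℤ → Fin 2) (a : A) => x a) (fun (x : ℤ → Fin 2) (b : B) => x b) κ := by
  apply IndepFun.process_indepFun_process
    (X := fun (i : A) (x : ℤ → Fin 2) => x i)
    (Y := fun (i : B) (x : ℤ → Fin 2) => x i)
    (fun i => measurable_pi_apply _) (fun i => measurable_pi_apply _)
  intro I J
  exact indep_finset hP h A B hd I J

end Pool.Agent.Q211.HC
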