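import Pool.Agent.Q211.HC.Indep

/-!
# Stationary k-dependent hard-core processes, and an upper bound for the density
-/

set_option autoImplicit false

open MeasureTheory ProbabilityTheory Filter Topology
open scoped ENNReal

namespace Pool.Agent.Q211.HC

/-- `μ` is the law of a stationary `k`-dependent hard-core process on the integers. -/
structure IsHardCoreLaw (k : ℕ) (μ : Measure (ℤ → Fin 2)) : Prop where
  prob : IsProbabilityMeasure μ
  hard : ∀ᵐ x ∂μ, ∀ i : ℤ, ¬ (x i = 1 ∧ x (i + 1) = 1)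
  stationary : μ.map (fun (x : ℤ → Fin 2) (n : ℤ) => x (n + 1)) = μ
  dependence : ∀ A B : Set ℤ, (∀ a ∈ A, ∀ b ∈ B, (k : ℤ) < |a - b|) →
    IndepFun (fun (x : ℤ → Fin 2) (a : A) => x a) (fun (x : ℤ → Fin 2) (b : B) => x b) μ

/-- `p_k`: the supremum of the marginal `P(X_0 = 1)`. -/
noncomputable def pk (k : ℕ) : ℝ :=
  sSup {r | ∃ μ : Measure (ℤ → Fin 2), IsHardCoreLaw k μ ∧ μ.real {x | x 0 = 1} = r}

theorem law_of_win {P : List (Fin 2) → ℝ} (hP : WLaw P) {κ : Measure (ℤ → Fin 2)}
    (hκ : IsProbabilityMeasure κ)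
    (h : ∀ (a : ℤ) (w : List (Fin 2)), κ {x | win x a w.length = w} = q P w) :
    IsHardCoreLaw 2 κ :=
  ⟨hκ, hard_of_win hP h, stat_of_win h, indep_sets hP h⟩

theorem IsHardCoreLaw.mono {k l : ℕ} (hkl : k ≤ l) {μ : Measure (ℤ → Fin 2)}
    (h : IsHardCoreLaw k μ) : IsHardCoreLaw l μ :=
  ⟨h.prob, h.hard, h.stationary, fun A B hd => h.dependence A B fun a ha b hb =>
    lt_of_le_of_lt (by exact_mod_cast hkl) (hd a ha b hb)⟩

/-- The event that all sites of `S` are occupied. -/
def occ (S : Finset ℤ) : Set (ℤ → Fin 2) := {x | ∀ i ∈ S, x i = 1}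

/-- The correlation function. -/
noncomputable def rho (μ : Measure (ℤ → Fin 2)) (S : Finset ℤ) : ℝ := μ.real (occ S)

theorem occ_eq (S : Finset ℤ) : occ S = ⋂ i ∈ S, {x : ℤ → Fin 2 | x i = 1} := by
  ext x; simp [occ]

theorem measurableSet_occ (S : Finset ℤ) : MeasurableSet (occ S) := by
  rw [occ_eq]
  refine Finset.measurableSet_biInter _ fun i _ => ?_
  have h : Measurable fun x : ℤ → Fin 2 => x i := measurable_pi_apply i
  exact h (measurableSet_singleton (1 : Fin 2))

variable {μ : Measure (ℤ → Fin 2)}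

theorem rho_indep {k : ℕ} (h : IsHardCoreLaw k μ) (S T : Finset ℤ)
    (hd : ∀ a ∈ S, ∀ b ∈ T, (k : ℤ) < |a - b|) : rho μ (S ∪ T) = rho μ S * rho μ T := by
  have h1 := h.dependence (S : Set ℤ) (T : Set ℤ) hd
  have mm : ∀ S : Finset ℤ,
      MeasurableSet {z : ↥(S : Set ℤ) → Fin 2 | ∀ i, z i = 1} := by
    intro S
    have : {z : ↥(S : Set ℤ) → Fin 2 | ∀ i, z i = 1} = ⋂ i, {z | z i = 1} := by ext; simp
    rw [this]
    refine MeasurableSet.iInter fun i => ?_
    have h : Measurable fun x : ↥(S : Set ℤ) → Fin 2 => x i := measurable_pi_apply i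
    exact h (measurableSet_singleton (1 : Fin 2))
  have m1 := mm S
  have m2 := mm T
  have h2 := h1.measure_inter_preimage_eq_mul _ _ m1 m2
  have e1 : (fun (x : ℤ → Fin 2) (a : ↥(S : Set ℤ)) => x a) ⁻¹' {z | ∀ i, z i = 1} = occ S := by
    ext x; simp [occ]
  have e2 : (fun (x : ℤ → Fin 2) (a : ↥(T : Set ℤ)) => x a) ⁻¹' {z | ∀ i, z i = 1} = occ T := by
    ext x; simp [occ]
  rw [e1, e2] at h2
  have e3 : occ (S ∪ T) = occ S ∩ occ T := by
    ext x
    simp only [occ, Set.mem_ofPred_eq, Set.mem_inter_iff, Finset.mem_union]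
    constructor
    · intro hx
      exact ⟨fun i hi => hx i (Or.inl hi), fun i hi => hx i (Or.inr hi)⟩
    · rintro ⟨hx, hy⟩ i (hi | hi)
      · exact hx i hi
      · exact hy i hi
  unfold rho Measure.real
  rw [e3, h2, ENNReal.toReal_mul]

theorem rho_shift {k : ℕ} (h : IsHardCoreLaw k μ) (S T : Finset ℤ)
    (hT : ∀ i, i ∈ T ↔ i - 1 ∈ S) : rho μ T = rho μ S := by
  unfold rho Measure.real
  conv_rhs => rw [← h.stationary]
  rw [Measure.map_apply measurable_shift (measurableSet_occ S)]
  congr 2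
  ext x
  simp only [occ, Set.mem_ofPred_eq, Set.mem_preimage]
  constructor
  · intro hx i hi
    exact hx (i + 1) ((hT _).2 (by simpa using hi))
  · intro hx i hi
    have := hx (i - 1) ((hT _).1 hi)
    simpa using this

/-- The indicator of `occ S`. -/
noncomputable def ind (S : Finset ℤ) (x : ℤ → Fin 2) : ℝ := if ∀ i ∈ S, x i = 1 then 1 else 0

theorem ind_eq (S : Finset ℤ) : ind S = (occ S).indicator fun _ => (1 : ℝ) := by
  ext x
  unfold ind
  by_cases h : ∀ i ∈ S, x i = 1
  · rw [if_pos h, Set.indicator_of_mem (show x ∈ occ S from h)]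
  · rw [if_neg h, Set.indicator_of_notMem (show x ∉ occ S from h)]

theorem integrable_ind [IsProbabilityMeasure μ] (S : Finset ℤ) : Integrable (ind S) μ := by
  rw [ind_eq]
  exact (integrable_const _).indicator (measurableSet_occ S)

theorem integral_ind (S : Finset ℤ) : ∫ x, ind S x ∂μ = rho μ S := by
  rw [ind_eq, integral_indicator_const _ (measurableSet_occ S)]
  simp [rho]

/-- A nonnegative linear combination of indicators has nonnegative expectation. -/
theorem comb_nonneg [IsProbabilityMeasure μ] (c : List (ℝ × Finset ℤ))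
    (h : ∀ᵐ x ∂μ, 0 ≤ (c.map fun p => p.1 * ind p.2 x).sum) :
    0 ≤ (c.map fun p => p.1 * rho μ p.2).sum := by
  have key : ∀ c : List (ℝ × Finset ℤ), Integrable (fun x => (c.map fun p => p.1 * ind p.2 x).sum) μ ∧
      ∫ x, (c.map fun p => p.1 * ind p.2 x).sum ∂μ = (c.map fun p => p.1 * rho μ p.2).sum := by
    intro c
    induction c with
    | nil => simp
    | cons p c ih =>
      have h1 : Integrable (fun x => p.1 * ind p.2 x) μ := (integrable_ind p.2).const_mul _
      refine ⟨?_, ?_⟩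
      · simp only [List.map_cons, List.sum_cons]
        exact h1.add ih.1
      · simp only [List.map_cons, List.sum_cons]
        rw [integral_add h1 ih.1, ih.2, integral_const_mul, integral_ind]
  rw [← (key c).2]
  exact integral_nonneg_of_ae h

theorem upper (h : IsHardCoreLaw 2 μ) :
    let p := rho μ {0}
    let a := rho μ {0, 2}
    0 ≤ 1 - 4 * p + 2 * a + 2 * p * a ∧ 0 ≤ p ^ 2 - 2 * p * a ∧ 2 * p ≤ 1 := by
  intro p a
  have hprob := h.prob
  have s0 : rho μ ∅ = 1 := by simp [rho, occ]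
  have s1 : rho μ {1} = p := rho_shift h {0} {1} (by intro i; simp; omega)
  have s2 : rho μ {2} = p := (rho_shift h {1} {2} (by intro i; simp; omega)).trans s1
  have s3 : rho μ {3} = p := (rho_shift h {2} {3} (by intro i; simp; omega)).trans s2
  have s4 : rho μ {4} = p := (rho_shift h {3} {4} (by intro i; simp; omega)).trans s3
  have s5 : rho μ {5} = p := (rho_shift h {4} {5} (by intro i; simp; omega)).trans s4
  have d1 : rho μ {1, 3} = a := rho_shift h {0, 2} {1, 3} (by intro i; simp; omega)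
  have d2 : rho μ {2, 4} = a := (rho_shift h {1, 3} {2, 4} (by intro i; simp; omega)).trans d1
  have d3 : rho μ {3, 5} = a := (rho_shift h {2, 4} {3, 5} (by intro i; simp; omega)).trans d2
  have t1 : rho μ {1, 3, 5} = rho μ {0, 2, 4} :=
    rho_shift h {0, 2, 4} {1, 3, 5} (by intro i; simp; omega)
  have ii : ∀ (i j : ℤ), 2 < |i - j| → rho μ {i, j} = rho μ {i} * rho μ {j} := by
    intro i j hij
    have := rho_indep h {i} {j} (by intro a ha b hb; simp at ha hb; subst ha; subst hb; exact hij)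
    rwa [show ({i} ∪ {j} : Finset ℤ) = {i, j} from rfl] at this
  have q1 : rho μ {0, 3} = p * p := by rw [ii 0 3 (by norm_num), s3]
  have q2 : rho μ {0, 4} = p * p := by rw [ii 0 4 (by norm_num), s4]
  have q3 : rho μ {1, 4} = p * p := by rw [ii 1 4 (by norm_num), s4, s1]
  have q4 : rho μ {0, 5} = p * p := by rw [ii 0 5 (by norm_num), s5]
  have q5 : rho μ {1, 5} = p * p := by rw [ii 1 5 (by norm_num), s5, s1]
  have q6 : rho μ {2, 5} = p * p := by rw [ii 2 5 (by norm_num), s5, s2]
  have r1 : rho μ {0, 2, 5} = p * a := by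
    have := rho_indep h {0, 2} {5} (by
      intro a ha b hb
      simp at ha hb
      subst hb
      rcases ha with rfl | rfl <;> norm_num)
    rw [show ({0, 2} ∪ {5} : Finset ℤ) = {0, 2, 5} by decide, s5] at this
    rw [this, mul_comm]
  have r2 : rho μ {0, 3, 5} = p * a := by
    have := rho_indep h {0} {3, 5} (by
      intro a ha b hb
      simp at ha hb
      subst ha
      rcases hb with rfl | rfl <;> norm_num)
    rw [show ({0} ∪ {3, 5} : Finset ℤ) = {0, 3, 5} by decide, d3] at this
    exact this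
  have c2 : ∀ t : Fin 2, t = 0 ∨ t = 1 := by decide
  refine ⟨?_, ?_, ?_⟩
  · have h1 := comb_nonneg (μ := μ) [(1, ∅), (-1, {0}), (-1, {1}), (-1, {2}), (-1, {3}), (-1, {4}),
      (1, {0, 2}), (1, {0, 3}), (1, {0, 4}), (1, {1, 3}), (1, {1, 4}), (1, {2, 4}),
      (-1, {0, 2, 4}), (1, {5}), (-1, {0, 5}), (-1, {1, 5}), (-1, {2, 5}), (-1, {3, 5}),
      (1, {0, 2, 5}), (1, {0, 3, 5}), (1, {1, 3, 5})] (by
        filter_upwards [h.hard] with x hx
        have g0 := hx 0
        have g1 := hx 1
        have g2 := hx 2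
        have g3 := hx 3
        have g4 := hx 4
        norm_num at g0 g1 g2 g3 g4
        rcases c2 (x 0) with e0 | e0 <;> rcases c2 (x 1) with e1 | e1 <;>
        rcases c2 (x 2) with e2 | e2 <;> rcases c2 (x 3) with e3 | e3 <;>
        rcases c2 (x 4) with e4 | e4 <;> rcases c2 (x 5) with e5 | e5 <;>
        simp [e0, e1, e2, e3, e4, e5] at g0 g1 g2 g3 g4 <;>
        simp [ind, e0, e1, e2, e3, e4, e5])
    simp only [List.map_cons, List.map_nil, List.sum_cons, List.sum_nil] at h1
    rw [s0, s1, s2, s3, s4, s5, d1, d2, d3, t1, q1, q2, q3, q4, q5, q6, r1, r2] at h1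
    change 0 ≤ 1 * 1 + (-1 * p + (-1 * p + (-1 * p + (-1 * p + (-1 * p + (1 * a + _)))))) at h1
    linarith
  · have h1 := comb_nonneg (μ := μ) [(1, {0, 5}), (-1, {0, 2, 5}), (-1, {0, 3, 5})] (by
        filter_upwards [h.hard] with x hx
        have g2 := hx 2
        norm_num at g2
        rcases c2 (x 0) with e0 | e0 <;> 
        rcases c2 (x 2) with e2 | e2 <;> rcases c2 (x 3) with e3 | e3 <;>
        rcases c2 (x 5) with e5 | e5 <;>
        simp [e2, e3] at g2 <;>
        simp [ind, e0, e2, e3, e5])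
    simp only [List.map_cons, List.map_nil, List.sum_cons, List.sum_nil] at h1
    rw [q4, r1, r2] at h1
    linarith
  · have h1 := comb_nonneg (μ := μ) [(1, ∅), (-1, {0}), (-1, {1})] (by
        filter_upwards [h.hard] with x hx
        have g0 := hx 0
        norm_num at g0
        rcases c2 (x 0) with e0 | e0 <;> rcases c2 (x 1) with e1 | e1 <;>
        simp [e0, e1] at g0 <;>
        simp [ind, e0, e1])
    simp only [List.map_cons, List.map_nil, List.sum_cons, List.sum_nil] at h1
    rw [s0, s1] at h1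
    change 0 ≤ 1 * 1 + (-1 * p + (-1 * p + 0)) at h1
    linarith

end Pool.Agent.Q211.HC
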