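import Pool.Agent.Q211.HC.Upper

/-!
# A sharper upper bound for the density of 2-dependent hard-core processes
-/

set_option autoImplicit false

open MeasureTheory ProbabilityTheory Filter Topology
open scoped ENNReal

namespace Pool.Agent.Q211.HC

variable {μ : Measure (ℤ → Fin 2)}

theorem rho_shiftn {k : ℕ} (h : IsHardCoreLaw k μ) (n : ℕ) (S T : Finset ℤ)
    (hT : ∀ i, i ∈ T ↔ i - n ∈ S) : rho μ T = rho μ S := by
  induction n generalizing T with
  | zero =>
    have : T = S := by ext i; simpa using hT i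
    rw [this]
  | succ n ih =>
    have h1 : rho μ T = rho μ (T.image fun i => i - 1) := by
      refine rho_shift h _ _ fun i => ?_
      rw [Finset.mem_image]
      constructor
      · intro hi
        exact ⟨i, hi, rfl⟩
      · rintro ⟨j, hj, hij⟩
        have : j = i := by omega
        rwa [← this]
    rw [h1]
    refine ih _ fun i => ?_
    rw [Finset.mem_image]
    constructor
    · rintro ⟨j, hj, hij⟩
      rw [hT] at hj
      have : j - ((n + 1 : ℕ) : ℤ) = i - n := by push_cast; omega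
      rwa [this] at hj
    · intro hi
      refine ⟨i + 1, (hT _).2 ?_, by omega⟩
      have : i + 1 - ((n + 1 : ℕ) : ℤ) = i - n := by push_cast; omega
      rwa [this]

set_option maxHeartbeats 4000000 in
theorem upper2 (h : IsHardCoreLaw 2 μ) :
    let p := rho μ {0}
    let a := rho μ {0, 2}
    let b := rho μ {0, 2, 4}
    0 ≤ b - a + p - a ^ 2 - 2 * p * b + 4 * p * a - 4 * p ^ 2 + 2 * p ^ 3 ∧
    0 ≤ 2 * b - 2 * a + p - a ^ 2 - p * b + 3 * p * a - 2 * p ^ 2 - p ^ 3 ∧
    0 ≤ - a ^ 2 - p * b + p * a := by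
  intro p a b
  have hprob := h.prob
  have R0 : rho μ {0} = p := rfl
  have R1 : rho μ {1} = p :=
    rho_shiftn h 1 {0} {1} (by intro i; simp; omega)
  have R2 : rho μ {2} = p :=
    rho_shiftn h 2 {0} {2} (by intro i; simp; omega)
  have R3 : rho μ {3} = p :=
    rho_shiftn h 3 {0} {3} (by intro i; simp; omega)
  have R4 : rho μ {4} = p :=
    rho_shiftn h 4 {0} {4} (by intro i; simp; omega)
  have R5 : rho μ {5} = p :=
    rho_shiftn h 5 {0} {5} (by intro i; simp; omega)
  have R7 : rho μ {7} = p :=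
    rho_shiftn h 7 {0} {7} (by intro i; simp; omega)
  have R0_2 : rho μ {0, 2} = a := rfl
  have R1_3 : rho μ {1, 3} = a :=
    rho_shiftn h 1 {0, 2} {1, 3} (by intro i; simp; omega)
  have R2_4 : rho μ {2, 4} = a :=
    rho_shiftn h 2 {0, 2} {2, 4} (by intro i; simp; omega)
  have R3_5 : rho μ {3, 5} = a :=
    rho_shiftn h 3 {0, 2} {3, 5} (by intro i; simp; omega)
  have R5_7 : rho μ {5, 7} = a :=
    rho_shiftn h 5 {0, 2} {5, 7} (by intro i; simp; omega)
  have R0_2_4 : rho μ {0, 2, 4} = b := rfl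
  have R1_3_5 : rho μ {1, 3, 5} = b :=
    rho_shiftn h 1 {0, 2, 4} {1, 3, 5} (by intro i; simp; omega)
  have R3_5_7 : rho μ {3, 5, 7} = b :=
    rho_shiftn h 3 {0, 2, 4} {3, 5, 7} (by intro i; simp; omega)
  have R0_5 : rho μ {0, 5} = p * p := by
    have := rho_indep h {0} {5} (by intro u hu v hv; simp at hu hv; rw [lt_abs]; omega)
    rw [show ({0} ∪ {5} : Finset ℤ) = {0, 5} by decide, R0, R5] at this
    exact this
  have R0_7 : rho μ {0, 7} = p * p := by
    have := rho_indep h {0} {7} (by intro u hu v hv; simp at hu hv; rw [lt_abs]; omega)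
    rw [show ({0} ∪ {7} : Finset ℤ) = {0, 7} by decide, R0, R7] at this
    exact this
  have R1_5 : rho μ {1, 5} = p * p := by
    have := rho_indep h {1} {5} (by intro u hu v hv; simp at hu hv; rw [lt_abs]; omega)
    rw [show ({1} ∪ {5} : Finset ℤ) = {1, 5} by decide, R1, R5] at this
    exact this
  have R1_7 : rho μ {1, 7} = p * p := by
    have := rho_indep h {1} {7} (by intro u hu v hv; simp at hu hv; rw [lt_abs]; omega)
    rw [show ({1} ∪ {7} : Finset ℤ) = {1, 7} by decide, R1, R7] at this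
    exact this
  have R2_5 : rho μ {2, 5} = p * p := by
    have := rho_indep h {2} {5} (by intro u hu v hv; simp at hu hv; rw [lt_abs]; omega)
    rw [show ({2} ∪ {5} : Finset ℤ) = {2, 5} by decide, R2, R5] at this
    exact this
  have R2_7 : rho μ {2, 7} = p * p := by
    have := rho_indep h {2} {7} (by intro u hu v hv; simp at hu hv; rw [lt_abs]; omega)
    rw [show ({2} ∪ {7} : Finset ℤ) = {2, 7} by decide, R2, R7] at this
    exact this
  have R3_7 : rho μ {3, 7} = p * p := by
    have := rho_indep h {3} {7} (by intro u hu v hv; simp at hu hv; rw [lt_abs]; omega)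
    rw [show ({3} ∪ {7} : Finset ℤ) = {3, 7} by decide, R3, R7] at this
    exact this
  have R4_7 : rho μ {4, 7} = p * p := by
    have := rho_indep h {4} {7} (by intro u hu v hv; simp at hu hv; rw [lt_abs]; omega)
    rw [show ({4} ∪ {7} : Finset ℤ) = {4, 7} by decide, R4, R7] at this
    exact this
  have R0_2_5 : rho μ {0, 2, 5} = a * p := by
    have := rho_indep h {0, 2} {5} (by intro u hu v hv; simp at hu hv; rw [lt_abs]; omega)
    rw [show ({0, 2} ∪ {5} : Finset ℤ) = {0, 2, 5} by decide, R0_2, R5] at this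
    exact this
  have R0_2_7 : rho μ {0, 2, 7} = a * p := by
    have := rho_indep h {0, 2} {7} (by intro u hu v hv; simp at hu hv; rw [lt_abs]; omega)
    rw [show ({0, 2} ∪ {7} : Finset ℤ) = {0, 2, 7} by decide, R0_2, R7] at this
    exact this
  have R0_3_5 : rho μ {0, 3, 5} = p * a := by
    have := rho_indep h {0} {3, 5} (by intro u hu v hv; simp at hu hv; rw [lt_abs]; omega)
    rw [show ({0} ∪ {3, 5} : Finset ℤ) = {0, 3, 5} by decide, R0, R3_5] at this
    exact this
  have R0_5_7 : rho μ {0, 5, 7} = p * a := by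
    have := rho_indep h {0} {5, 7} (by intro u hu v hv; simp at hu hv; rw [lt_abs]; omega)
    rw [show ({0} ∪ {5, 7} : Finset ℤ) = {0, 5, 7} by decide, R0, R5_7] at this
    exact this
  have R1_3_7 : rho μ {1, 3, 7} = a * p := by
    have := rho_indep h {1, 3} {7} (by intro u hu v hv; simp at hu hv; rw [lt_abs]; omega)
    rw [show ({1, 3} ∪ {7} : Finset ℤ) = {1, 3, 7} by decide, R1_3, R7] at this
    exact this
  have R2_4_7 : rho μ {2, 4, 7} = a * p := by
    have := rho_indep h {2, 4} {7} (by intro u hu v hv; simp at hu hv; rw [lt_abs]; omega)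
    rw [show ({2, 4} ∪ {7} : Finset ℤ) = {2, 4, 7} by decide, R2_4, R7] at this
    exact this
  have R2_5_7 : rho μ {2, 5, 7} = p * a := by
    have := rho_indep h {2} {5, 7} (by intro u hu v hv; simp at hu hv; rw [lt_abs]; omega)
    rw [show ({2} ∪ {5, 7} : Finset ℤ) = {2, 5, 7} by decide, R2, R5_7] at this
    exact this
  have R0_2_4_7 : rho μ {0, 2, 4, 7} = b * p := by
    have := rho_indep h {0, 2, 4} {7} (by intro u hu v hv; simp at hu hv; rw [lt_abs]; omega)
    rw [show ({0, 2, 4} ∪ {7} : Finset ℤ) = {0, 2, 4, 7} by decide, R0_2_4, R7] at this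
    exact this
  have R0_2_5_7 : rho μ {0, 2, 5, 7} = a * a := by
    have := rho_indep h {0, 2} {5, 7} (by intro u hu v hv; simp at hu hv; rw [lt_abs]; omega)
    rw [show ({0, 2} ∪ {5, 7} : Finset ℤ) = {0, 2, 5, 7} by decide, R0_2, R5_7] at this
    exact this
  have R0_3_5_7 : rho μ {0, 3, 5, 7} = p * b := by
    have := rho_indep h {0} {3, 5, 7} (by intro u hu v hv; simp at hu hv; rw [lt_abs]; omega)
    rw [show ({0} ∪ {3, 5, 7} : Finset ℤ) = {0, 3, 5, 7} by decide, R0, R3_5_7] at this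
    exact this
  have R0_3 : rho μ {0, 3} = p * p := by
    have := rho_indep h {0} {3} (by intro u hu v hv; simp at hu hv; rw [lt_abs]; omega)
    rw [show ({0} ∪ {3} : Finset ℤ) = {0, 3} by decide, R0, R3] at this
    exact this
  have R0_3_7 : rho μ {0, 3, 7} = p * p * p := by
    have := rho_indep h {0, 3} {7} (by intro u hu v hv; simp at hu hv; rw [lt_abs]; omega)
    rw [show ({0, 3} ∪ {7} : Finset ℤ) = {0, 3, 7} by decide, R0_3, R7] at this
    exact this
  have R0_4 : rho μ {0, 4} = p * p := by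
    have := rho_indep h {0} {4} (by intro u hu v hv; simp at hu hv; rw [lt_abs]; omega)
    rw [show ({0} ∪ {4} : Finset ℤ) = {0, 4} by decide, R0, R4] at this
    exact this
  have R0_4_7 : rho μ {0, 4, 7} = p * p * p := by
    have := rho_indep h {0, 4} {7} (by intro u hu v hv; simp at hu hv; rw [lt_abs]; omega)
    rw [show ({0, 4} ∪ {7} : Finset ℤ) = {0, 4, 7} by decide, R0_4, R7] at this
    exact this
  have R1_4 : rho μ {1, 4} = p * p := by
    have := rho_indep h {1} {4} (by intro u hu v hv; simp at hu hv; rw [lt_abs]; omega)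
    rw [show ({1} ∪ {4} : Finset ℤ) = {1, 4} by decide, R1, R4] at this
    exact this
  have R1_4_7 : rho μ {1, 4, 7} = p * p * p := by
    have := rho_indep h {1, 4} {7} (by intro u hu v hv; simp at hu hv; rw [lt_abs]; omega)
    rw [show ({1, 4} ∪ {7} : Finset ℤ) = {1, 4, 7} by decide, R1_4, R7] at this
    exact this
  have c2 : ∀ t : Fin 2, t = 0 ∨ t = 1 := by decide
  refine ⟨?_, ?_, ?_⟩
  · have h1 := comb_nonneg (μ := μ) [(1, {7}), (-1, {0, 7}), (-1, {2, 7}), (-1, {3, 7}), (-1, {4, 7}), (-1, {5, 7}), (1, {0, 2, 7}), (1, {0, 3, 7}), (1, {0, 4, 7}), (1, {0, 5, 7}), (1, {2, 4, 7}), (1, {2, 5, 7}), (1, {3, 5, 7}), (-1, {0, 2, 4, 7}), (-1, {0, 2, 5, 7}), (-1, {0, 3, 5, 7})] (by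
        filter_upwards [h.hard] with x hx
        have g0 := hx 0
        have g1 := hx 1
        have g2 := hx 2
        have g3 := hx 3
        have g4 := hx 4
        have g5 := hx 5
        have g6 := hx 6
        norm_num at g0 g1 g2 g3 g4 g5 g6
        rcases c2 (x 0) with e0 | e0 <;> rcases c2 (x 1) with e1 | e1 <;>
        rcases c2 (x 2) with e2 | e2 <;> rcases c2 (x 3) with e3 | e3 <;>
        rcases c2 (x 4) with e4 | e4 <;> rcases c2 (x 5) with e5 | e5 <;>
        rcases c2 (x 6) with e6 | e6 <;> rcases c2 (x 7) with e7 | e7 <;>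
        simp [e0, e1, e2, e3, e4, e5, e6, e7] at g0 g1 g2 g3 g4 g5 g6 <;>
        simp [ind, e0, e1, e2, e3, e4, e5, e6, e7])
    simp only [List.map_cons, List.map_nil, List.sum_cons, List.sum_nil] at h1
    rw [R7, R0_7, R2_7, R3_7, R4_7, R5_7, R0_2_7, R0_3_7, R0_4_7, R0_5_7, R2_4_7, R2_5_7, R3_5_7, R0_2_4_7, R0_2_5_7, R0_3_5_7] at h1
    linarith
  · have h1 := comb_nonneg (μ := μ) [(1, {5}), (-1, {0, 5}), (-1, {1, 5}), (1, {1, 7}), (-1, {2, 5}), (-1, {3, 5}), (-1, {5, 7}), (1, {0, 2, 5}), (1, {0, 3, 5}), (1, {0, 5, 7}), (1, {1, 3, 5}), (-1, {1, 3, 7}), (-1, {1, 4, 7}), (1, {2, 5, 7}), (1, {3, 5, 7}), (-1, {0, 2, 5, 7}), (-1, {0, 3, 5, 7})] (by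
        filter_upwards [h.hard] with x hx
        have g0 := hx 0
        have g1 := hx 1
        have g2 := hx 2
        have g3 := hx 3
        have g4 := hx 4
        have g5 := hx 5
        have g6 := hx 6
        norm_num at g0 g1 g2 g3 g4 g5 g6
        rcases c2 (x 0) with e0 | e0 <;> rcases c2 (x 1) with e1 | e1 <;>
        rcases c2 (x 2) with e2 | e2 <;> rcases c2 (x 3) with e3 | e3 <;>
        rcases c2 (x 4) with e4 | e4 <;> rcases c2 (x 5) with e5 | e5 <;>
        rcases c2 (x 6) with e6 | e6 <;> rcases c2 (x 7) with e7 | e7 <;>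
        simp [e0, e1, e2, e3, e4, e5, e6, e7] at g0 g1 g2 g3 g4 g5 g6 <;>
        simp [ind, e0, e1, e2, e3, e4, e5, e6, e7])
    simp only [List.map_cons, List.map_nil, List.sum_cons, List.sum_nil] at h1
    rw [R5, R0_5, R1_5, R1_7, R2_5, R3_5, R5_7, R0_2_5, R0_3_5, R0_5_7, R1_3_5, R1_3_7, R1_4_7, R2_5_7, R3_5_7, R0_2_5_7, R0_3_5_7] at h1
    linarith
  · have h1 := comb_nonneg (μ := μ) [(1, {0, 5, 7}), (-1, {0, 2, 5, 7}), (-1, {0, 3, 5, 7})] (by
        filter_upwards [h.hard] with x hx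
        have g0 := hx 0
        have g1 := hx 1
        have g2 := hx 2
        have g3 := hx 3
        have g4 := hx 4
        have g5 := hx 5
        have g6 := hx 6
        norm_num at g0 g1 g2 g3 g4 g5 g6
        rcases c2 (x 0) with e0 | e0 <;> rcases c2 (x 1) with e1 | e1 <;>
        rcases c2 (x 2) with e2 | e2 <;> rcases c2 (x 3) with e3 | e3 <;>
        rcases c2 (x 4) with e4 | e4 <;> rcases c2 (x 5) with e5 | e5 <;>
        rcases c2 (x 6) with e6 | e6 <;> rcases c2 (x 7) with e7 | e7 <;>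
        simp [e0, e1, e2, e3, e4, e5, e6, e7] at g0 g1 g2 g3 g4 g5 g6 <;>
        simp [ind, e0, e1, e2, e3, e4, e5, e6, e7])
    simp only [List.map_cons, List.map_nil, List.sum_cons, List.sum_nil] at h1
    rw [R0_5_7, R0_2_5_7, R0_3_5_7] at h1
    linarith

end Pool.Agent.Q211.HC
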